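import Pool.Agent.Helper57.FibInf2

set_option autoImplicit false
open MeasureTheory

namespace Pool.Agent.Results.MP_1775a6_pr.FibersFinite

/-- Negative answer to the second question (the reading with an existential quantifier over the
fibers): there are a countable infinite connected locally finite graph `G` with critical
probability one and a `p` strictly between `0` and `1` such that, with positive probability, Bernoulli `p` bond
percolation on `G × ℤ` has an infinite cluster that meets every fiber in a finite set. -/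
theorem result :
    ∃ (V : Type) (_ : Countable V) (_ : Infinite V) (G : SimpleGraph V),
      G.Connected ∧
      (∀ v : V, (G.neighborSet v).Finite) ∧
      (∀ q : ℝ, 0 ≤ q → q < 1 →
        ∀ (Ω : Type) [MeasurableSpace Ω] (P : Measure Ω) [IsProbabilityMeasure P]
          (ξ : Ω → Set (Sym2 V)),
          (∀ e : Sym2 V, MeasurableSet {w : Ω | e ∈ ξ w}) →
          ProbabilityTheory.iIndepSet (fun e : Sym2 V => {w : Ω | e ∈ ξ w}) P →
          (∀ e : Sym2 V, P {w : Ω | e ∈ ξ w} = ENNReal.ofReal q) →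
          ∀ᵐ w ∂P, ∀ x : V, Set.Finite {y : V |
            (G ⊓ SimpleGraph.fromEdgeSet (ξ w)).Reachable x y}) ∧
      ∃ p : ℝ, 0 < p ∧ p < 1 ∧
        ∃ (Ω : Type) (_ : MeasurableSpace Ω) (P : Measure Ω) (_ : IsProbabilityMeasure P)
          (ξ : Ω → Set (Sym2 (V × ℤ))),
          (∀ e : Sym2 (V × ℤ), MeasurableSet {w : Ω | e ∈ ξ w}) ∧
          ProbabilityTheory.iIndepSet (fun e : Sym2 (V × ℤ) => {w : Ω | e ∈ ξ w}) P ∧
          (∀ e : Sym2 (V × ℤ), P {w : Ω | e ∈ ξ w} = ENNReal.ofReal p) ∧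
          0 < P {w : Ω | ∃ x : V × ℤ,
            Set.Infinite {y : V × ℤ |
              (SimpleGraph.boxProd G (SimpleGraph.hasse ℤ) ⊓
                SimpleGraph.fromEdgeSet (ξ w)).Reachable x y} ∧
            ∀ v : V, Set.Finite {n : ℤ |
              (SimpleGraph.boxProd G (SimpleGraph.hasse ℤ) ⊓
                SimpleGraph.fromEdgeSet (ξ w)).Reachable x (v, n)}} := by
  obtain ⟨M, h, ℓ, g⟩ := Pool.Agent.Helper57.exists_good
  have hM : ∀ j, 1 ≤ M j := fun j => by have := g.M_ge j; omega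
  have hl : ∀ j, 1 ≤ ℓ j := g.l_pos
  refine ⟨Pool.Agent.Helper57.VV Pool.Agent.Helper57.b0 M ℓ, inferInstance,
    Pool.Agent.Helper57.VV_infinite hM (by norm_num),
    Pool.Agent.Helper57.GG Pool.Agent.Helper57.b0 M ℓ,
    Pool.Agent.Helper57.GG_conn hM hl, fun v => Pool.Agent.Helper57.GG_locfin v,
    fun q hq0 hq1 Ω _ P _ ξ hm hi hP =>
      Pool.Agent.Helper57.pc_one hM (Pool.Agent.Helper57.l_tendsto g) hq0 hq1 P ξ hm hi hP,
    (Pool.Agent.Helper57.p0 : ℝ), Pool.Agent.Helper57.p0_pos,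
    by rw [Pool.Agent.Helper57.p0_val]; norm_num,
    Sym2 (Pool.Agent.Helper57.Raw Pool.Agent.Helper57.b0 × ℤ) → Bool, inferInstance,
    Pool.Agent.Helper57.PB Pool.Agent.Helper57.p0 _, inferInstance,
    Pool.Agent.Helper57.xi Pool.Agent.Helper57.b0 M ℓ,
    fun e => Pool.Agent.Helper57.xi_meas e, Pool.Agent.Helper57.xi_indep,
    fun e => Pool.Agent.Helper57.xi_prob e, ?_⟩
  rw [pos_iff_ne_zero]
  intro h0
  refine Pool.Agent.Helper57.prob_ZZ g (measure_mono_null (t := _ ∪
    Pool.Agent.Helper57.badA M ℓ) ?_ (measure_union_null h0 Pool.Agent.Helper57.prob_badA))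
  intro ω hω
  by_cases hb : ω ∈ Pool.Agent.Helper57.badA M ℓ
  · exact Or.inr hb
  · exact Or.inl ⟨Pool.Agent.Helper57.xs hM, Pool.Agent.Helper57.ZZ_infinite hM hω,
      fun v => Pool.Agent.Helper57.fib_finite hM hl hω hb v⟩

end Pool.Agent.Results.MP_1775a6_pr.FibersFinite
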